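import Pool.Agent.H58c.Downward

namespace Pool.Agent.Results.MP_d65884_co.FiniteComponents

open H58Wqo

universe u

/-- The following are equivalent: the graphs of any cardinality all of whose components are
finite are well-quasi-ordered under minors; the countable such graphs are; there is no bad Rado
array of finite graphs; the minor-closed classes of finite graphs are well-quasi-ordered by
inclusion. -/
theorem result : List.TFAE [AllWqo.{u}, CountableWqo, NoBadRadoArray, ClassesWqo] := by
  tfae_have 1 → 2 := countableWqo_of_allWqo
  tfae_have 2 → 4 := classesWqo_of_countableWqo
  tfae_have 4 → 3 := rado_of_classesWqo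
  tfae_have 3 → 4 := classesWqo_of_rado
  tfae_have 4 → 1 := allWqo_of_classesWqo
  tfae_finish

end Pool.Agent.Results.MP_d65884_co.FiniteComponents
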