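import Pool.Agent.H65.D65.Classes

/-! For the graphs of finite tree-width, being well-quasi-ordered under minors is
equivalent to being better-quasi-ordered under minors. -/

namespace Pool.Agent.Results.MP_d65884_co.WqoIffBqo

open H65.D65

universe u

/-- Every class of graphs closed under adding a dominating vertex and under root joins is
well-quasi-ordered under minors if and only if it is better-quasi-ordered under minors.
The graphs of finite tree-width, the countable graphs and the countable rayless graphs of
finite tree-width are such classes, and the last one contains all finite graphs. -/
theorem result :
    (∀ C : Gr.{u} → Prop, Closed C → (WQO C ↔ BQO C)) ∧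
      Closed FiniteTreeWidth.{u} ∧ Closed IsCountable.{u} ∧ Closed Small.{u} ∧
      ∀ G : Gr.{u}, Finite G.V → Small G :=
  ⟨fun _ hC => wqo_iff_bqo hC, closed_ftw, closed_countable, closed_small, small_of_finite⟩

end Pool.Agent.Results.MP_d65884_co.WqoIffBqo
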